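import Pool.Agent.W2helper61.NT.Enum
import Pool.Prelude.Def_H_3587d628

/-!
Functions on strings and pairs of strings computed in polynomial time in the encodings of the
prelude, and the class `PF`.
-/

set_option autoImplicit false

namespace Pool.Agent.W2helper61.SM

open Turing Pool.Agent.H583R2 Pool.Agent.W2helper61 Pool.Agent.W2helper61.NT N68a2faeb

/-- the encoding of a string in the prelude -/
def encL (x : List Bool) : List Bool := x.flatMap (fun b => [true, b, false])

/-- doubling with an end mark -/
def dlm (x : List Bool) : List Bool := x.flatMap (fun b => [true, b]) ++ [false]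

theorem delimit_eq (x : List Bool) : N487b59b3.delimit x = dlm x := by
  induction x with
  | nil => rfl
  | cons b x ih =>
    rw [N487b59b3.delimit, ih]
    simp [dlm]

theorem bitEncode_list (x : List Bool) : N487b59b3.bitEncode x = encL x := by
  change ((x.map N487b59b3.bitEncode).map N487b59b3.delimit).flatten = encL x
  induction x with
  | nil => rfl
  | cons b x ih =>
    rw [List.map_cons, List.map_cons, List.flatten_cons, ih]
    rfl

theorem bitEncode_pair (x w : List Bool) :
    N487b59b3.bitEncode (x, w) = dlm (encL x) ++ encL w := by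
  change N487b59b3.delimit (N487b59b3.bitEncode x) ++ N487b59b3.bitEncode w = _
  rw [bitEncode_list, bitEncode_list, delimit_eq]

/-! ### decoders -/

def stL (st : ℕ × List Bool) (b : Bool) : ℕ × List Bool :=
  if decide (st.1 = 0) then (1, st.2) else if decide (st.1 = 1) then (2, b :: st.2) else (0, st.2)

def decLs (s : List Bool) : List Bool := (s.foldl stL (0, [])).2.reverse

theorem decLs_aux (x : List Bool) : ∀ acc, (encL x).foldl stL (0, acc) = (0, x.reverse ++ acc) := by
  induction x with
  | nil => intro acc; rfl
  | cons b x ih =>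
    intro acc
    have e : encL (b :: x) = true :: b :: false :: encL x := rfl
    rw [e]
    simp only [List.foldl_cons]
    have e2 : stL (stL (stL (0, acc) true) b) false = (0, b :: acc) := rfl
    rw [e2, ih]
    simp

theorem decLs_encL (x : List Bool) : decLs (encL x) = x := by
  unfold decLs
  rw [decLs_aux]
  simp

def stP (st : ℕ × List Bool × List Bool) (b : Bool) : ℕ × List Bool × List Bool :=
  if decide (st.1 = 0) then (if b then (1, st.2) else (2, st.2))
  else if decide (st.1 = 1) then (0, b :: st.2.1, st.2.2)
  else (2, st.2.1, b :: st.2.2)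

def decPs (s : List Bool) : List Bool × List Bool :=
  (((s.foldl stP (0, [], [])).2.1).reverse, ((s.foldl stP (0, [], [])).2.2).reverse)

theorem stP_aux2 (r : List Bool) : ∀ a1 a2, r.foldl stP (2, a1, a2) = (2, a1, r.reverse ++ a2) := by
  induction r with
  | nil => intro a1 a2; rfl
  | cons b r ih =>
    intro a1 a2
    rw [List.foldl_cons]
    have e : stP (2, a1, a2) b = (2, a1, b :: a2) := rfl
    rw [e, ih]
    simp

theorem stP_aux (l r : List Bool) : ∀ a1, (dlm l ++ r).foldl stP (0, a1, []) =
    (2, l.reverse ++ a1, r.reverse) := by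
  induction l with
  | nil =>
    intro a1
    have e : dlm [] ++ r = false :: r := rfl
    rw [e, List.foldl_cons]
    have e2 : stP (0, a1, []) false = (2, a1, []) := rfl
    rw [e2, stP_aux2]
    simp
  | cons b l ih =>
    intro a1
    have e : dlm (b :: l) ++ r = true :: b :: (dlm l ++ r) := by simp [dlm]
    rw [e, List.foldl_cons, List.foldl_cons]
    have e2 : stP (stP (0, a1, []) true) b = (0, b :: a1, []) := rfl
    rw [e2, ih]
    simp

theorem decPs_eq (l r : List Bool) : decPs (dlm l ++ r) = (l, r) := by
  unfold decPs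
  rw [stP_aux]
  simp

section
variable {α β : Type} [TEnc α] [TEnc β]

theorem pf_encL {x : α → List Bool} (hx : PF x) : PF (fun a => encL (x a)) :=
  PF.flatMap (f := fun _ b => [true, b, false]) hx
    (PF.cons (PF.const true) (PF.cons PF.snd (PF.const [false])))

theorem pf_dlm {x : α → List Bool} (hx : PF x) : PF (fun a => dlm (x a)) :=
  PF.append (PF.flatMap (f := fun _ b => [true, b]) hx
    (PF.cons (PF.const true) (PF.cons PF.snd (PF.const [])))) (PF.const [false])

theorem pf_decLs {s : α → List Bool} (hs : PF s) : PF (fun a => decLs (s a)) := by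
  have h := PF.foldlAdd (l := s) (s := fun _ => ((0 : ℕ), ([] : List Bool)))
    (f := fun _ st b => stL st b) hs (PF.const _)
    (PF.ite (PF.natEq (PF.fst' (PF.fst' PF.snd)) (PF.const 0))
      (PF.pair (PF.const 1) (PF.snd' (PF.fst' PF.snd)))
      (PF.ite (PF.natEq (PF.fst' (PF.fst' PF.snd)) (PF.const 1))
        (PF.pair (PF.const 2) (PF.cons (PF.snd' PF.snd) (PF.snd' (PF.fst' PF.snd))))
        (PF.pair (PF.const 0) (PF.snd' (PF.fst' PF.snd)))))
    (inc := fun _ => 20) (bnd := fun _ => 0) (PB.const 20) (PB.const 0) (by
      intro a b _ st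
      have h1 := sz_bool b
      rw [sz_prod st]
      have h3 := sz_pos st.1
      unfold stL
      split
      · rw [sz_pair, sz_nat 1]; omega
      · split
        · rw [sz_pair, sz_cons, sz_nat 2]; omega
        · rw [sz_pair, sz_nat 0]; omega)
  exact PF.reverse (PF.snd' h)

theorem pf_decPs {s : α → List Bool} (hs : PF s) : PF (fun a => decPs (s a)) := by
  have h := PF.foldlAdd (l := s) (s := fun _ => ((0 : ℕ), ([] : List Bool), ([] : List Bool)))
    (f := fun _ st b => stP st b) hs (PF.const _)
    (PF.ite (PF.natEq (PF.fst' (PF.fst' PF.snd)) (PF.const 0))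
      (PF.ite (PF.snd' PF.snd) (PF.pair (PF.const 1) (PF.snd' (PF.fst' PF.snd)))
        (PF.pair (PF.const 2) (PF.snd' (PF.fst' PF.snd))))
      (PF.ite (PF.natEq (PF.fst' (PF.fst' PF.snd)) (PF.const 1))
        (PF.pair (PF.const 0) (PF.pair (PF.cons (PF.snd' PF.snd)
          (PF.fst' (PF.snd' (PF.fst' PF.snd)))) (PF.snd' (PF.snd' (PF.fst' PF.snd)))))
        (PF.pair (PF.const 2) (PF.pair (PF.fst' (PF.snd' (PF.fst' PF.snd)))
          (PF.cons (PF.snd' PF.snd) (PF.snd' (PF.snd' (PF.fst' PF.snd))))))))
    (inc := fun _ => 20) (bnd := fun _ => 0) (PB.const 20) (PB.const 0) (by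
      intro a b _ st
      have h1 := sz_bool b
      rw [sz_prod st, sz_prod st.2]
      have h3 := sz_pos st.1
      unfold stP
      split
      · split
        · rw [sz_pair, sz_nat 1, sz_prod st.2]; omega
        · rw [sz_pair, sz_nat 2, sz_prod st.2]; omega
      · split
        · rw [sz_pair, sz_pair, sz_cons, sz_nat 0]; omega
        · rw [sz_pair, sz_pair, sz_cons, sz_nat 2]; omega)
  exact PF.pair (PF.reverse (PF.fst' (PF.snd' h))) (PF.reverse (PF.snd' (PF.snd' h)))

/-- polynomial-time computable in given encodings implies `PF` -/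
theorem pf_of_poly {f : α → β} {ea : α → List Bool} {eb : β → List Bool} (hea : PF ea)
    (M : TM2ComputableInPolyTime ea eb f) : PF (fun a => eb (f a)) := by
  obtain ⟨e, he⟩ := poly_le_pow M.time
  have hU : ∀ a t, H583R2.maxDep M.tm * M.time.eval (ea a).length ≤ t →
      U (codeOf M.inputAlphabet M.outputAlphabet) (ea a) t = some (eb (f a)) := fun a t ht =>
    U_codeOf M.inputAlphabet M.outputAlphabet (ea a) (eb (f a)) _ (M.outputsFun a) t ht
  have hp : PF (fun a => H583R2.maxDep M.tm * ((ea a).length + 2) ^ e) :=
    PF.mul (PF.const _) (pf_powN (PF.add (PF.length hea) (PF.const 2)) e)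
  refine (PF.getD (PF.U.comp ((PF.const (codeOf M.inputAlphabet M.outputAlphabet)).pair
    (hea.pair hp))) (PF.const [])).congr ?_
  intro a
  simp only [hU a _ (Nat.mul_le_mul_left _ (he _)), Option.getD_some]

end

/-- polynomial-time predicates on pairs are in `PF` -/
theorem pf_of_isPolyTime {R : (List Bool × List Bool) → Bool} (h : IsPolyTime R) : PF R := by
  obtain ⟨M⟩ := h
  have hea : PF (fun p : List Bool × List Bool => dlm (encL p.1) ++ encL p.2) :=
    PF.append (pf_dlm (pf_encL PF.fst)) (pf_encL PF.snd)
  have hea' : PF (fun p : List Bool × List Bool =>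
      (N487b59b3.toEncoding (α := List Bool × List Bool)).encode p) :=
    hea.congr (fun p => (bitEncode_pair p.1 p.2).symm)
  have h1 := pf_of_poly hea' M
  refine (PF.headF h1).congr ?_
  intro p
  rfl

/-- predicates on pairs in `PF` are polynomial-time computable -/
theorem isPolyTime_of_pf {R : (List Bool × List Bool) → Bool} (h : PF R) : IsPolyTime R := by
  have h1 : PF (fun s : List Bool => [R (decLs (decPs s).1, decLs (decPs s).2)]) :=
    PF.cons (h.comp (PF.pair (pf_decLs (PF.fst' (pf_decPs PF.id)))
      (pf_decLs (PF.snd' (pf_decPs PF.id))))) (PF.const [])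
  obtain ⟨M⟩ := tm_of_pf (f := fun s : List Bool => R (decLs (decPs s).1, decLs (decPs s).2))
    (fun b : Bool => [b]) h1
  refine ⟨{ toTM2ComputableAux := M.toTM2ComputableAux
            time := M.time
            outputsFun := fun p => ?_ }⟩
  have h2 := M.outputsFun (N487b59b3.bitEncode p)
  have e1 : R (decLs (decPs (N487b59b3.bitEncode p)).1, decLs (decPs (N487b59b3.bitEncode p)).2) =
      R p := by
    have : N487b59b3.bitEncode p = dlm (encL p.1) ++ encL p.2 := bitEncode_pair p.1 p.2
    rw [this, decPs_eq]
    simp only [decLs_encL]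
  simp only [e1] at h2
  exact h2

/-- the class `NP` of the prelude in terms of `PF` -/
theorem np_iff {L : DecisionProblem} : L ∈ NP ↔ ∃ (a : ℕ) (R : List Bool × List Bool → Bool),
    PF R ∧ ∀ x, L x = true ↔ ∃ w : List Bool, w.length ≤ (x.length + 2) ^ a ∧ R (x, w) = true := by
  constructor
  · rintro ⟨p, R, hR, h⟩
    obtain ⟨a, ha⟩ := poly_le_pow p
    have hp : PF (fun q : List Bool × List Bool => decide (q.2.length ≤ p.eval q.1.length)) := by
      have hev : ∀ p : Polynomial ℕ, PF (fun q : List Bool × List Bool => p.eval q.1.length) := by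
        intro p
        induction p using Polynomial.induction_on' with
        | add p q hp hq => exact (PF.add hp hq).congr (fun x => by rw [Polynomial.eval_add])
        | monomial m c =>
          refine (PF.mul (PF.const c) (pf_powN (PF.length PF.fst) m)).congr ?_
          intro x
          rw [Polynomial.eval_monomial]
      exact PF.le (PF.length PF.snd) (hev p)
    refine ⟨a, fun q => decide (q.2.length ≤ p.eval q.1.length) && R q,
      PF.and hp (pf_of_isPolyTime hR), ?_⟩
    intro x
    rw [h x]
    constructor
    · rintro ⟨w, h1, h2⟩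
      exact ⟨w, h1.trans (ha _), by simp [h1, h2]⟩
    · rintro ⟨w, _, h2⟩
      rw [Bool.and_eq_true, decide_eq_true_eq] at h2
      exact ⟨w, h2.1, h2.2⟩
  · rintro ⟨a, R, hR, h⟩
    refine ⟨(Polynomial.X + 2) ^ a, R, isPolyTime_of_pf hR, ?_⟩
    intro x
    rw [h x]
    simp

end Pool.Agent.W2helper61.SM
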