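import Pool.Agent.W2helper61.SM.Enc
import Pool.Prelude.Def_F_c21d359f
import Pool.Prelude.Def_F_458e953d

/-!
Delayed diagonalisation along chains of padded inputs against reductions of fixed polynomial
time, for semantic classes.
-/

set_option autoImplicit false

namespace Pool.Agent.W2helper61.SM

open Turing Pool.Agent.H583R2 Pool.Agent.W2helper61 Pool.Agent.W2helper61.NT N68a2faeb

/-- `f` is computed by a Turing machine in time `O(n^k)` -/
def TimePow (k : ℕ) (f : List Bool → List Bool) : Prop :=
  ∃ (M : TM2ComputableInTime (id : List Bool → List Bool) (id : List Bool → List Bool) f) (C : ℕ),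
    ∀ n, M.time n ≤ C * n ^ k + C

/-! ### chain inputs -/

/-- the `j`-th input of the `i`-th chain -/
def yy (i j : ℕ) : List Bool := List.replicate i true ++ false :: List.replicate j true

def jOf (y : List Bool) : ℕ := y.length - dE y - 1

theorem length_yy (i j : ℕ) : (yy i j).length = i + j + 1 := by simp [yy]; omega

theorem dE_yy (i j : ℕ) : dE (yy i j) = i := by unfold dE yy; rw [stripT_rep]

theorem jOf_yy (i j : ℕ) : jOf (yy i j) = j := by unfold jOf; rw [length_yy, dE_yy]; omega

theorem dE_add_jOf (y : List Bool) : dE y + jOf y ≤ y.length := by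
  unfold jOf
  rcases stripT_len y with h | ⟨h, _⟩ <;> omega

/-- the value of the `i`-th transducer on the `j`-th input, if reached in time -/
def zz (k i j : ℕ) : Option (List Bool) := U (mE i) (yy i j) ((i + j + 3) ^ (k + 1))

theorem zz_len {k i j : ℕ} {z : List Bool} (h : zz k i j = some z) :
    z.length ≤ i + j + 1 + (i + j + 3) ^ (k + 1) := by
  have := U_length_le (mE i) (yy i j) ((i + j + 3) ^ (k + 1))
  unfold zz at h
  rw [h, length_yy] at this
  exact this

/-- the chain has reached its end -/
def top (e : ℕ) (y : List Bool) : Bool :=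
  decide (min (2 ^ ((dE y + 2) ^ e)) (jOf y + 1) ≤ jOf y)

theorem top_iff {e : ℕ} {y : List Bool} : top e y = true ↔ 2 ^ ((dE y + 2) ^ e) ≤ jOf y := by
  unfold top
  rw [decide_eq_true_eq]
  omega

/-- next and first values -/
def res (k : ℕ) (y : List Bool) : Option (List Bool) := zz k (dE y) (jOf y + 1)
def res0 (k : ℕ) (y : List Bool) : Option (List Bool) := zz k (dE y) 0

def opt (L : List Bool → Bool) (o : Option (List Bool)) : Bool :=
  match o with
  | none => false
  | some z => L z

section
variable {α : Type} [TEnc α]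

theorem pf_yy {i j : α → ℕ} (hi : PF i) (hj : PF j) : PF (fun a => yy (i a) (j a)) :=
  PF.append (pf_una hi) (PF.cons (PF.const false) (pf_una hj))

theorem pf_jOf {y : α → List Bool} (hy : PF y) : PF (fun a => jOf (y a)) :=
  PF.pred (PF.sub (PF.length hy) (PF.dE hy))

theorem pf_zz (k : ℕ) {i j : α → ℕ} (hi : PF i) (hj : PF j) :
    PF (fun a => zz k (i a) (j a)) := by
  have h1 : PF (fun a => (i a + j a + 3) ^ (k + 1)) :=
    pf_powN (PF.add (PF.add hi hj) (PF.const 3)) (k + 1)
  have h2 := PF.comp PF.U (PF.pair (PF.mE hi) (PF.pair (pf_yy hi hj) h1))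
  refine h2.congr ?_
  intro a
  unfold zz
  rfl

theorem pf_top (e : ℕ) {y : α → List Bool} (hy : PF y) : PF (fun a => top e (y a)) :=
  PF.le (pf_cexp (pf_powN (PF.add (PF.dE hy) (PF.const 2)) e) (PF.succ (pf_jOf hy))) (pf_jOf hy)

theorem pf_res (k : ℕ) {y : α → List Bool} (hy : PF y) : PF (fun a => res k (y a)) :=
  pf_zz k (PF.dE hy) (PF.succ (pf_jOf hy))

theorem pf_res0 (k : ℕ) {y : α → List Bool} (hy : PF y) : PF (fun a => res0 k (y a)) :=
  pf_zz k (PF.dE hy) (PF.const 0)

end

/-! ### brute force at the end of a chain -/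

/-- brute-force search for a witness -/
def bf (a : ℕ) (R : List Bool × List Bool → Bool) (z : List Bool) (m : ℕ) : Bool :=
  (List.range m).any (fun t => decide ((str t).length ≤ (z.length + 2) ^ a) && R (z, str t))

theorem bf_iff {a : ℕ} {R : List Bool × List Bool → Bool} {z : List Bool} {m : ℕ}
    (hm : 2 ^ ((z.length + 2) ^ a + 1) ≤ m) :
    bf a R z m = true ↔ ∃ w : List Bool, w.length ≤ (z.length + 2) ^ a ∧ R (z, w) = true := by
  unfold bf
  rw [List.any_eq_true]
  constructor
  · rintro ⟨t, _, h⟩
    rw [Bool.and_eq_true, decide_eq_true_eq] at h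
    exact ⟨str t, h.1, h.2⟩
  · rintro ⟨w, h1, h2⟩
    refine ⟨idx w, List.mem_range.2 ((idx_lt_of_length h1).trans_le hm), ?_⟩
    rw [str_idx, Bool.and_eq_true, decide_eq_true_eq]
    exact ⟨h1, h2⟩

theorem pow_ineq (k a i : ℕ) :
    ((i + 1 + (i + 3) ^ (k + 1)) + 2) ^ a + 1 ≤ (i + 2) ^ ((2 * k + 3) * a + 1) := by
  have hb : 2 ≤ i + 2 := by omega
  have h1 : i + 3 ≤ (i + 2) ^ 2 := by nlinarith
  have h2 : (i + 3) ^ (k + 1) ≤ (i + 2) ^ (2 * k + 2) := by
    calc (i + 3) ^ (k + 1) ≤ ((i + 2) ^ 2) ^ (k + 1) := Nat.pow_le_pow_left h1 _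
      _ = (i + 2) ^ (2 * k + 2) := by rw [← pow_mul]; rfl
  have h3 : i + 3 ≤ (i + 2) ^ (2 * k + 2) :=
    h1.trans (Nat.pow_le_pow_right (by omega) (by omega))
  have h4 : i + 1 + (i + 3) ^ (k + 1) + 2 ≤ (i + 2) ^ (2 * k + 3) := by
    have : (i + 2) ^ (2 * k + 3) = (i + 2) ^ (2 * k + 2) * (i + 2) := pow_succ _ _
    rw [this]
    have h5 : (i + 2) ^ (2 * k + 2) * 2 ≤ (i + 2) ^ (2 * k + 2) * (i + 2) :=
      Nat.mul_le_mul_left _ hb
    omega
  have h5 : ((i + 1 + (i + 3) ^ (k + 1)) + 2) ^ a ≤ (i + 2) ^ ((2 * k + 3) * a) := by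
    rw [pow_mul]; exact Nat.pow_le_pow_left h4 _
  have h6 : 1 ≤ (i + 2) ^ ((2 * k + 3) * a) := Nat.one_le_pow _ _ (by omega)
  have h8 : (i + 2) ^ ((2 * k + 3) * a + 1) = (i + 2) ^ ((2 * k + 3) * a) * (i + 2) :=
    pow_succ _ _
  rw [h8]
  have h7 : (i + 2) ^ ((2 * k + 3) * a) * 2 ≤ (i + 2) ^ ((2 * k + 3) * a) * (i + 2) :=
    Nat.mul_le_mul_left _ hb
  omega

/-- the exponent of the chain length -/
def eOf (k a : ℕ) : ℕ := (2 * k + 3) * a + 1

theorem bf_top {k a : ℕ} {R : List Bool × List Bool → Bool} {y z : List Bool}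
    (ht : top (eOf k a) y = true) (hz : res0 k y = some z) :
    bf a R z y.length = true ↔ ∃ w : List Bool, w.length ≤ (z.length + 2) ^ a ∧
      R (z, w) = true := by
  apply bf_iff
  rw [top_iff] at ht
  have h1 := zz_len hz
  have h2 := pow_ineq k a (dE y)
  have h3 : (z.length + 2) ^ a ≤ ((dE y + 1 + (dE y + 3) ^ (k + 1)) + 2) ^ a :=
    Nat.pow_le_pow_left (by simp only [Nat.add_zero] at h1; omega) _
  have h4 : 2 ^ ((z.length + 2) ^ a + 1) ≤ 2 ^ ((dE y + 2) ^ (eOf k a)) :=
    Nat.pow_le_pow_right (by norm_num) (by unfold eOf; omega)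
  have h5 := dE_add_jOf y
  omega

theorem wit_bound {k a : ℕ} {y z : List Bool} (hz : res k y = some z) :
    (z.length + 2) ^ a ≤ (y.length + 2) ^ ((2 * k + 3) * (2 * a) ) := by
  have h1 := zz_len hz
  have h2 := dE_add_jOf y
  set n := y.length with hn
  have h3 : z.length + 2 ≤ (n + 2) ^ (4 * k + 6) := by
    have h4 : z.length + 2 ≤ n + 4 + (n + 4) ^ (k + 1) := by
      have : (dE y + (jOf y + 1) + 3) ^ (k + 1) ≤ (n + 4) ^ (k + 1) :=
        Nat.pow_le_pow_left (by omega) _
      omega
    have h5 : n + 4 ≤ (n + 2) ^ 2 := by nlinarith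
    have h6 : (n + 4) ^ (k + 1) ≤ (n + 2) ^ (2 * k + 2) := by
      calc (n + 4) ^ (k + 1) ≤ ((n + 2) ^ 2) ^ (k + 1) := Nat.pow_le_pow_left h5 _
        _ = (n + 2) ^ (2 * k + 2) := by rw [← pow_mul]; rfl
    have h7 : n + 4 ≤ (n + 2) ^ (2 * k + 2) :=
      h5.trans (Nat.pow_le_pow_right (by omega) (by omega))
    have h8 : (n + 2) ^ (2 * k + 2) * 2 ≤ (n + 2) ^ (2 * k + 3) := by
      rw [pow_succ _ (2 * k + 2)]
      exact Nat.mul_le_mul_left _ (by omega)
    have h9 : (n + 2) ^ (2 * k + 3) ≤ (n + 2) ^ (4 * k + 6) :=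
      Nat.pow_le_pow_right (by omega) (by omega)
    omega
  calc (z.length + 2) ^ a ≤ ((n + 2) ^ (4 * k + 6)) ^ a := Nat.pow_le_pow_left h3 _
    _ = (n + 2) ^ ((2 * k + 3) * (2 * a)) := by rw [← pow_mul]; congr 1; ring

/-! ### the simulated transducer -/

theorem exists_index_for {k : ℕ} {f : List Bool → List Bool} (hf : TimePow k f) :
    ∃ i, ∀ j, zz k i j = some (f (yy i j)) := by
  obtain ⟨M, C, hC⟩ := hf
  obtain ⟨c, m, hcm⟩ := code_of_tm M
  obtain ⟨i, hi, hic⟩ := exists_mE c (2 * (m * C))
  refine ⟨i, ?_⟩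
  intro j
  unfold zz
  rw [hic]
  apply hcm
  rw [length_yy]
  have h1 : m * M.time (i + j + 1) ≤ m * (C * (i + j + 1) ^ k + C) := Nat.mul_le_mul_left _ (hC _)
  refine h1.trans ?_
  have h2 : (i + j + 1) ^ k ≤ (i + j + 3) ^ k := Nat.pow_le_pow_left (by omega) _
  have h3 : 1 ≤ (i + j + 3) ^ k := Nat.one_le_pow _ _ (by omega)
  rw [pow_succ]
  have h4 : m * (C * (i + j + 1) ^ k + C) ≤ m * (C * (2 * (i + j + 3) ^ k)) := by
    apply Nat.mul_le_mul_left
    have : C * (i + j + 1) ^ k + C = C * ((i + j + 1) ^ k + 1) := by ring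
    rw [this]
    exact Nat.mul_le_mul_left _ (by omega)
  refine h4.trans ?_
  have h5 : m * (C * (2 * (i + j + 3) ^ k)) = (i + j + 3) ^ k * (2 * (m * C)) := by ring
  rw [h5]
  exact Nat.mul_le_mul_left _ (by omega)

/-! ### disjoint coNP pairs -/

section pairs
variable (k a : ℕ) (A B : DecisionProblem) (RA RB : List Bool × List Bool → Bool)

def A' : DecisionProblem := fun y =>
  if top (eOf k a) y then !(opt A (res0 k y)) else opt A (res k y)

def B' : DecisionProblem := fun y =>
  if top (eOf k a) y then opt A (res0 k y) else opt B (res k y)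

/-- deterministic evaluation at the end of the chain -/
def optC (y : List Bool) : Bool :=
  match res0 k y with
  | none => false
  | some z => !(bf a RA z y.length)

theorem optC_eq (hA : ∀ x, A x = false ↔ ∃ w : List Bool, w.length ≤ (x.length + 2) ^ a ∧
    RA (x, w) = true) {y : List Bool} (ht : top (eOf k a) y = true) :
    optC k a RA y = opt A (res0 k y) := by
  unfold optC opt
  rcases h : res0 k y with _ | z
  · rfl
  · simp only
    have h1 := (bf_top (R := RA) ht h).trans (hA z).symm
    cases hz : A z with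
    | false => rw [h1.2 hz]; rfl
    | true =>
      cases hb : bf a RA z y.length with
      | false => rfl
      | true => rw [h1.1 hb] at hz; cases hz

/-- verifier for non-membership -/
def ver (neg : Bool) (R : List Bool × List Bool → Bool) (q : List Bool × List Bool) : Bool :=
  if top (eOf k a) q.1 then (optC k a RA q.1 != neg)
  else match res k q.1 with
    | none => true
    | some z => decide (q.2.length ≤ (z.length + 2) ^ a) && R (z, q.2)

theorem pf_optC {α : Type} [TEnc α] (hRA : PF RA) {y : α → List Bool} (hy : PF y) :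
    PF (fun x => optC k a RA (y x)) := by
  have hbf : PF (fun q : α × List Bool => bf a RA q.2 (y q.1).length) := by
    refine PF.any (f := fun (q : α × List Bool) t =>
      decide ((str t).length ≤ (q.2.length + 2) ^ a) && RA (q.2, str t))
      (PF.range (PF.length (hy.comp PF.fst))) ?_
    exact PF.and (PF.le (PF.length (PF.str PF.snd)) (pf_powN (PF.add (PF.length (PF.snd' PF.fst))
      (PF.const 2)) a)) (hRA.comp (PF.pair (PF.snd' PF.fst) (PF.str PF.snd)))
  refine (PF.optCase (l := fun x => res0 k (y x)) (g := fun _ => false)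
    (h := fun x z => !(bf a RA z (y x).length)) (pf_res0 k hy) (PF.const false)
    (PF.not hbf)).congr ?_
  intro x
  unfold optC
  rcases res0 k (y x) with _ | _ <;> rfl

theorem pf_ver (neg : Bool) {R : List Bool × List Bool → Bool} (hRA : PF RA) (hR : PF R) :
    PF (ver k a RA neg R) := by
  have h1 : PF (fun q : List Bool × List Bool => (optC k a RA q.1 != neg)) := by
    refine (PF.not (PF.beqBool (pf_optC k a RA hRA PF.fst) (PF.const neg))).congr ?_
    intro q
    cases optC k a RA q.1 <;> cases neg <;> rfl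
  have h2 : PF (fun q : List Bool × List Bool => match res k q.1 with
      | none => true
      | some z => decide (q.2.length ≤ (z.length + 2) ^ a) && R (z, q.2)) := by
    refine (PF.optCase (l := fun q : List Bool × List Bool => res k q.1) (g := fun _ => true)
      (h := fun q z => decide (q.2.length ≤ (z.length + 2) ^ a) && R (z, q.2))
      (pf_res k PF.fst) (PF.const true) ?_).congr ?_
    · exact PF.and (PF.le (PF.length (PF.snd' PF.fst)) (pf_powN (PF.add (PF.length PF.snd)
        (PF.const 2)) a)) (hR.comp (PF.pair PF.snd (PF.snd' PF.fst)))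
    · intro q
      rcases res k q.1 with _ | _ <;> rfl
  exact PF.ite (pf_top _ PF.fst) h1 h2

variable {k a A B RA RB}

theorem A'_mem (hRA : PF RA) (hA : ∀ x, A x = false ↔ ∃ w : List Bool,
    w.length ≤ (x.length + 2) ^ a ∧ RA (x, w) = true) : A' k a A ∈ coNP := by
  refine np_iff.2 ⟨(2 * k + 3) * (2 * a), ver k a RA false RA, pf_ver k a RA false hRA hRA, ?_⟩
  intro y
  have e : ((A' k a A)ᶜ : DecisionProblem) y = !(A' k a A y) := rfl
  rw [e]
  unfold A' ver
  by_cases ht : top (eOf k a) y = true
  · simp only [ht, if_true]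
    rw [optC_eq k a A RA hA ht]
    cases opt A (res0 k y) with
    | false =>
      constructor
      · intro h; simp at h
      · rintro ⟨w, _, h⟩; simp at h
    | true => exact ⟨fun _ => ⟨[], Nat.zero_le _, rfl⟩, fun _ => rfl⟩
  · simp only [ht, if_false, Bool.false_eq_true]
    rcases h : res k y with _ | z
    · exact ⟨fun _ => ⟨[], Nat.zero_le _, rfl⟩, fun _ => rfl⟩
    · simp only [opt, Bool.not_eq_true', Bool.and_eq_true, decide_eq_true_eq]
      rw [hA z]
      constructor
      · rintro ⟨w, h1, h2⟩
        exact ⟨w, h1.trans (wit_bound h), h1, h2⟩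
      · rintro ⟨w, _, h1, h2⟩
        exact ⟨w, h1, h2⟩

theorem B'_mem (hRA : PF RA) (hA : ∀ x, A x = false ↔ ∃ w : List Bool,
    w.length ≤ (x.length + 2) ^ a ∧ RA (x, w) = true) (hRB : PF RB)
    (hB : ∀ x, B x = false ↔ ∃ w : List Bool,
    w.length ≤ (x.length + 2) ^ a ∧ RB (x, w) = true) : B' k a A B ∈ coNP := by
  refine np_iff.2 ⟨(2 * k + 3) * (2 * a), ver k a RA true RB, pf_ver k a RA true hRA hRB, ?_⟩
  intro y
  have e : ((B' k a A B)ᶜ : DecisionProblem) y = !(B' k a A B y) := rfl
  rw [e]
  unfold B' ver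
  by_cases ht : top (eOf k a) y = true
  · simp only [ht, if_true]
    rw [optC_eq k a A RA hA ht]
    cases opt A (res0 k y) with
    | true =>
      constructor
      · intro h; simp at h
      · rintro ⟨w, _, h⟩; simp at h
    | false => exact ⟨fun _ => ⟨[], Nat.zero_le _, rfl⟩, fun _ => rfl⟩
  · simp only [ht, if_false, Bool.false_eq_true]
    rcases h : res k y with _ | z
    · exact ⟨fun _ => ⟨[], Nat.zero_le _, rfl⟩, fun _ => rfl⟩
    · simp only [opt, Bool.not_eq_true', Bool.and_eq_true, decide_eq_true_eq]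
      rw [hB z]
      constructor
      · rintro ⟨w, h1, h2⟩
        exact ⟨w, h1.trans (wit_bound h), h1, h2⟩
      · rintro ⟨w, _, h1, h2⟩
        exact ⟨w, h1, h2⟩

end pairs

theorem not_top_yy {e i j : ℕ} (h : j < 2 ^ ((i + 2) ^ e)) : top e (yy i j) = false := by
  rw [Bool.eq_false_iff, ne_eq, top_iff, dE_yy, jOf_yy]
  omega

theorem top_yy {e i : ℕ} : top e (yy i (2 ^ ((i + 2) ^ e))) = true := by
  rw [top_iff, dE_yy, jOf_yy]

theorem pairs_main (k : ℕ) (A B : DecisionProblem) (h : N08b01508.IsDisjointCoNPPair A B) :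
    ∃ A' B' : DecisionProblem, N08b01508.IsDisjointCoNPPair A' B' ∧
      ∀ f : List Bool → List Bool, TimePow k f →
        ¬ ((∀ x, A' x = true → A (f x) = true) ∧ ∀ x, B' x = true → B (f x) = true) := by
  obtain ⟨a1, RA, hRA, hA⟩ := np_iff.1 h.memA
  obtain ⟨a2, RB, hRB, hB⟩ := np_iff.1 h.memB
  -- common exponent
  have key : ∀ (L : DecisionProblem) (a1 a : ℕ) (R : List Bool × List Bool → Bool), PF R →
      a1 ≤ a → (∀ x, (Lᶜ : DecisionProblem) x = true ↔ ∃ w : List Bool,
        w.length ≤ (x.length + 2) ^ a1 ∧ R (x, w) = true) →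
      ∃ R' : List Bool × List Bool → Bool, PF R' ∧ ∀ x, L x = false ↔ ∃ w : List Bool,
        w.length ≤ (x.length + 2) ^ a ∧ R' (x, w) = true := by
    intro L a1 a R hR ha hL
    refine ⟨fun q => decide (q.2.length ≤ (q.1.length + 2) ^ a1) && R q,
      PF.and (PF.le (PF.length PF.snd) (pf_powN (PF.add (PF.length PF.fst) (PF.const 2)) a1)) hR,
      ?_⟩
    intro x
    have h1 := hL x
    have e : (Lᶜ : DecisionProblem) x = !(L x) := rfl
    rw [e, Bool.not_eq_true'] at h1
    rw [h1]
    constructor
    · rintro ⟨w, h2, h3⟩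
      exact ⟨w, h2.trans (Nat.pow_le_pow_right (by omega) ha), by simp [h2, h3]⟩
    · rintro ⟨w, _, h3⟩
      rw [Bool.and_eq_true, decide_eq_true_eq] at h3
      exact ⟨w, h3.1, h3.2⟩
  obtain ⟨RA', hRA', hA'⟩ := key A a1 (max a1 a2) RA hRA (le_max_left _ _) hA
  obtain ⟨RB', hRB', hB'⟩ := key B a2 (max a1 a2) RB hRB (le_max_right _ _) hB
  set a := max a1 a2 with ha
  refine ⟨A' k a A, B' k a A B, ⟨A'_mem hRA' hA', B'_mem hRA' hA' hRB' hB', ?_⟩, ?_⟩
  · intro y
    unfold A' B'
    split
    · cases opt A (res0 k y) <;> simp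
    · rcases res k y with _ | z
      · simp [opt]
      · exact h.disjoint z
  · rintro f hf ⟨h1, h2⟩
    obtain ⟨i, hi⟩ := exists_index_for hf
    set N := 2 ^ ((i + 2) ^ (eOf k a)) with hN
    have htop : top (eOf k a) (yy i N) = true := top_yy
    have hr0 : ∀ j, res0 k (yy i j) = some (f (yy i 0)) := by
      intro j; unfold res0; rw [dE_yy, hi]
    have hr : ∀ j, res k (yy i j) = some (f (yy i (j + 1))) := by
      intro j; unfold res; rw [dE_yy, jOf_yy, hi]
    cases hA0 : A (f (yy i 0)) with
    | false =>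
      -- `A'` holds at the end of the chain
      have hend : A' k a A (yy i N) = true := by
        unfold A'
        rw [htop, if_pos rfl, hr0]
        simp [opt, hA0]
      have hdown : ∀ d ≤ N, A' k a A (yy i (N - d)) = true := by
        intro d
        induction d with
        | zero => intro _; exact hend
        | succ d ih =>
          intro hd
          have h3 := h1 _ (ih (by omega))
          unfold A'
          rw [not_top_yy (by omega), if_neg (by simp), hr]
          have e : N - (d + 1) + 1 = N - d := by omega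
          rw [e]
          exact h3
      have h4 := h1 _ (hdown N le_rfl)
      rw [Nat.sub_self, hA0] at h4
      cases h4
    | true =>
      have hend : B' k a A B (yy i N) = true := by
        unfold B'
        rw [htop, if_pos rfl, hr0]
        simp [opt, hA0]
      have hdown : ∀ d ≤ N, B' k a A B (yy i (N - d)) = true := by
        intro d
        induction d with
        | zero => intro _; exact hend
        | succ d ih =>
          intro hd
          have h3 := h2 _ (ih (by omega))
          unfold B'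
          rw [not_top_yy (by omega), if_neg (by simp), hr]
          have e : N - (d + 1) + 1 = N - d := by omega
          rw [e]
          exact h3
      have h4 := h2 _ (hdown N le_rfl)
      rw [Nat.sub_self] at h4
      exact h.disjoint _ ⟨hA0, h4⟩

/-! ### the class `UP` -/

section up
variable (k a : ℕ) (L : DecisionProblem) (R : List Bool × List Bool → Bool)

def L' : DecisionProblem := fun y =>
  if top (eOf k a) y then !(opt L (res0 k y)) else opt L (res k y)

def optU (y : List Bool) : Bool :=
  match res0 k y with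
  | none => false
  | some z => bf a R z y.length

theorem optU_eq (hL : ∀ x, L x = true ↔ ∃ w : List Bool, w.length ≤ (x.length + 2) ^ a ∧
    R (x, w) = true) {y : List Bool} (ht : top (eOf k a) y = true) :
    optU k a R y = opt L (res0 k y) := by
  unfold optU opt
  rcases h : res0 k y with _ | z
  · rfl
  · simp only
    rw [Bool.eq_iff_iff]
    exact (bf_top (R := R) ht h).trans (hL z).symm

def verU (q : List Bool × List Bool) : Bool :=
  if top (eOf k a) q.1 then (!(optU k a R q.1) && q.2.isEmpty)
  else match res k q.1 with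
    | none => false
    | some z => decide (q.2.length ≤ (z.length + 2) ^ a) && R (z, q.2)

theorem pf_verU (hR : PF R) : PF (verU k a R) := by
  have hbf : PF (fun q : (List Bool × List Bool) × List Bool =>
      bf a R q.2 q.1.1.length) := by
    refine PF.any (f := fun (q : (List Bool × List Bool) × List Bool) t =>
      decide ((str t).length ≤ (q.2.length + 2) ^ a) && R (q.2, str t))
      (PF.range (PF.length (PF.fst' PF.fst))) ?_
    exact PF.and (PF.le (PF.length (PF.str PF.snd)) (pf_powN (PF.add (PF.length (PF.snd' PF.fst))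
      (PF.const 2)) a)) (hR.comp (PF.pair (PF.snd' PF.fst) (PF.str PF.snd)))
  have h0 : PF (fun q : List Bool × List Bool => optU k a R q.1) := by
    refine (PF.optCase (l := fun q : List Bool × List Bool => res0 k q.1) (g := fun _ => false)
      (h := fun q z => bf a R z q.1.length) (pf_res0 k PF.fst) (PF.const false) hbf).congr ?_
    intro q
    unfold optU
    rcases res0 k q.1 with _ | _ <;> rfl
  have h2 : PF (fun q : List Bool × List Bool => match res k q.1 with
      | none => false
      | some z => decide (q.2.length ≤ (z.length + 2) ^ a) && R (z, q.2)) := by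
    refine (PF.optCase (l := fun q : List Bool × List Bool => res k q.1) (g := fun _ => false)
      (h := fun q z => decide (q.2.length ≤ (z.length + 2) ^ a) && R (z, q.2))
      (pf_res k PF.fst) (PF.const false) ?_).congr ?_
    · exact PF.and (PF.le (PF.length (PF.snd' PF.fst)) (pf_powN (PF.add (PF.length PF.snd)
        (PF.const 2)) a)) (hR.comp (PF.pair PF.snd (PF.snd' PF.fst)))
    · intro q
      rcases res k q.1 with _ | _ <;> rfl
  exact PF.ite (pf_top _ PF.fst) (PF.and (PF.not h0) (PF.isEmpty PF.snd)) h2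

end up

theorem up_main (k : ℕ) (L : DecisionProblem) (h : L ∈ N793a5b8e.UP) :
    ∃ L' ∈ N793a5b8e.UP, ∀ f : List Bool → List Bool, TimePow k f →
      ¬ ∀ x, L' x = L (f x) := by
  obtain ⟨p, R, hR, hL, hu⟩ := h
  obtain ⟨a, ha⟩ := poly_le_pow p
  -- a verifier with bound `(n + 2) ^ a` and unique witnesses
  set R' : List Bool × List Bool → Bool :=
    fun q => decide (q.2.length ≤ p.eval q.1.length) && R q with hR'
  have hPF : PF R' := by
    have hev : ∀ p : Polynomial ℕ, PF (fun q : List Bool × List Bool => p.eval q.1.length) := by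
      intro p
      induction p using Polynomial.induction_on' with
      | add p q hp hq => exact (PF.add hp hq).congr (fun x => by rw [Polynomial.eval_add])
      | monomial m c =>
        refine (PF.mul (PF.const c) (pf_powN (PF.length PF.fst) m)).congr ?_
        intro x
        rw [Polynomial.eval_monomial]
    exact PF.and (PF.le (PF.length PF.snd) (hev p)) (pf_of_isPolyTime hR)
  have hL1 : ∀ x, L x = true ↔ ∃ w : List Bool, w.length ≤ (x.length + 2) ^ a ∧
      R' (x, w) = true := by
    intro x
    rw [hL x]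
    constructor
    · rintro ⟨w, h1, h2⟩
      exact ⟨w, h1.trans (ha _), by simp [hR', h1, h2]⟩
    · rintro ⟨w, _, h2⟩
      simp only [hR', Bool.and_eq_true, decide_eq_true_eq] at h2
      exact ⟨w, h2.1, h2.2⟩
  have hu1 : ∀ x w w', R' (x, w) = true → R' (x, w') = true → w = w' := by
    intro x w w' h1 h2
    simp only [hR', Bool.and_eq_true, decide_eq_true_eq] at h1 h2
    exact hu x w w' h1.1 h2.1 h1.2 h2.2
  refine ⟨L' k a L, ⟨(Polynomial.X + 2) ^ ((2 * k + 3) * (2 * a)), verU k a R',
    isPolyTime_of_pf (pf_verU k a R' hPF), ?_, ?_⟩, ?_⟩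
  · intro y
    unfold L' verU
    by_cases ht : top (eOf k a) y = true
    · simp only [ht, if_true]
      rw [optU_eq k a L R' hL1 ht]
      cases opt L (res0 k y) with
      | true =>
        constructor
        · intro h; simp at h
        · rintro ⟨w, _, h⟩; simp at h
      | false => exact ⟨fun _ => ⟨[], Nat.zero_le _, rfl⟩, fun _ => rfl⟩
    · simp only [ht, if_false, Bool.false_eq_true]
      rcases h : res k y with _ | z
      · constructor
        · intro h; simp [opt] at h
        · rintro ⟨w, _, h⟩; simp at h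
      · simp only [opt, Bool.and_eq_true, decide_eq_true_eq]
        rw [hL1 z]
        constructor
        · rintro ⟨w, h1, h2⟩
          refine ⟨w, h1.trans ?_, h1, h2⟩
          simpa using wit_bound h
        · rintro ⟨w, _, h1, h2⟩
          exact ⟨w, h1, h2⟩
  · intro y w w' _ _ h1 h2
    unfold verU at h1 h2
    by_cases ht : top (eOf k a) y = true
    · simp only [ht, if_true, Bool.and_eq_true, List.isEmpty_iff] at h1 h2
      rw [h1.2, h2.2]
    · simp only [ht, if_false, Bool.false_eq_true] at h1 h2
      rcases h : res k y with _ | z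
      · rw [h] at h1; simp at h1
      · rw [h] at h1 h2
        simp only [Bool.and_eq_true, decide_eq_true_eq] at h1 h2
        exact hu1 z w w' h1.2 h2.2
  · intro f hf hred
    obtain ⟨i, hi⟩ := exists_index_for hf
    set N := 2 ^ ((i + 2) ^ (eOf k a)) with hN
    have htop : top (eOf k a) (yy i N) = true := top_yy
    have hr0 : res0 k (yy i N) = some (f (yy i 0)) := by
      unfold res0; rw [dE_yy, hi]
    have hr : ∀ j, res k (yy i j) = some (f (yy i (j + 1))) := by
      intro j; unfold res; rw [dE_yy, jOf_yy, hi]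
    have hend : L' k a L (yy i N) = !(L (f (yy i 0))) := by
      unfold L'
      rw [htop, if_pos rfl, hr0]
      rfl
    have hdown : ∀ d ≤ N, L' k a L (yy i (N - d)) = !(L (f (yy i 0))) := by
      intro d
      induction d with
      | zero => intro _; exact hend
      | succ d ih =>
        intro hd
        have h3 := ih (by omega)
        rw [hred] at h3
        unfold L'
        rw [not_top_yy (by omega), if_neg (by simp), hr]
        have e : N - (d + 1) + 1 = N - d := by omega
        rw [e]
        exact h3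
    have h4 := hdown N le_rfl
    rw [Nat.sub_self, hred] at h4
    cases hh : L (f (yy i 0)) <;> rw [hh] at h4 <;> cases h4

end Pool.Agent.W2helper61.SM
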